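import Pool.Agent.Helper76.CY.Lin

set_option autoImplicit false

namespace Pool.Agent.Helper67.CY

open MvPolynomial Pool.Agent.Helper76.CY

/-- The case of a monomial. -/
theorem arc_monomial {ι K O : Type*} [Field K] [CommRing O] [Algebra K O] (t : O) (τ : ι → K)
    (c b : ι → O) (hc : ∀ q, c q = algebraMap K O (τ q) + t * b q) (d : ℕ) (s : ι →₀ ℕ)
    (hs : d ≤ s.degree) :
    (∏ i ∈ s.support, (t * c i) ^ s i) -
      (if s.degree = d then t ^ d * algebraMap K O (∏ i ∈ s.support, τ i ^ s i) else 0) ∈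
      Ideal.span {t ^ (d + 1)} := by
  have h1 : (∏ i ∈ s.support, (t * c i) ^ s i) = t ^ s.degree * ∏ i ∈ s.support, c i ^ s i := by
    simp only [mul_pow]
    rw [Finset.prod_mul_distrib, Finset.prod_pow_eq_pow_sum]
    rfl
  rw [h1]
  split_ifs with h
  · rw [h, ← mul_sub]
    have h2 : (∏ i ∈ s.support, c i ^ s i) - algebraMap K O (∏ i ∈ s.support, τ i ^ s i) ∈
        Ideal.span {t} := by
      rw [← Ideal.Quotient.eq]
      simp only [map_prod, map_pow]
      refine Finset.prod_congr rfl fun i _ => ?_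
      congr 1
      rw [Ideal.Quotient.eq, hc i, add_sub_cancel_left]
      exact Ideal.mul_mem_right _ _ (Ideal.mem_span_singleton_self t)
    obtain ⟨y, hy⟩ := Ideal.mem_span_singleton'.1 h2
    rw [← hy]
    exact Ideal.mem_span_singleton'.2 ⟨y, by ring⟩
  · rw [sub_zero]
    refine Ideal.mem_span_singleton.2 ?_
    exact Dvd.dvd.mul_right (pow_dvd_pow t (by omega)) _

theorem arc_eval {ι K O : Type*} [Field K] [CommRing O] [Algebra K O] (t : O) (τ : ι → K)
    (a : ι → O) (ha : ∀ q, a q - t * algebraMap K O (τ q) ∈ Ideal.span {t ^ 2}) (d : ℕ)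
    (g : MvPolynomial ι K) (hg : g ∈ idealOfVars ι K ^ d) :
    aeval a g - t ^ d * algebraMap K O (eval τ (homogeneousComponent d g)) ∈
      Ideal.span {t ^ (d + 1)} := by
  classical
  have hb : ∀ q, ∃ b : O, a q = t * (algebraMap K O (τ q) + t * b) := by
    intro q
    obtain ⟨b, hb⟩ := Ideal.mem_span_singleton'.1 (ha q)
    exact ⟨b, by linear_combination -hb⟩
  choose b hb using hb
  have hdeg : ∀ s ∈ g.support, d ≤ s.degree := by
    intro s hs
    exact (mem_pow_idealOfVars_iff d g).1 hg s hs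
  have e1 : aeval a g = ∑ s ∈ g.support, algebraMap K O (g.coeff s) *
      ∏ i ∈ s.support, (t * (algebraMap K O (τ i) + t * b i)) ^ s i := by
    rw [aeval_def, eval₂_eq]
    refine Finset.sum_congr rfl fun s _ => ?_
    congr 1
    refine Finset.prod_congr rfl fun i _ => ?_
    rw [← hb i]
  have e2 : t ^ d * algebraMap K O (eval τ (homogeneousComponent d g)) =
      ∑ s ∈ g.support, algebraMap K O (g.coeff s) *
        (if s.degree = d then t ^ d * algebraMap K O (∏ i ∈ s.support, τ i ^ s i) else 0) := by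
    rw [homogeneousComponent_apply, map_sum, map_sum, Finset.mul_sum, Finset.sum_filter]
    refine Finset.sum_congr rfl fun s _ => ?_
    split_ifs with h
    · rw [eval_monomial, map_mul]
      simp only [Finsupp.prod]
      ring
    · rw [mul_zero]
  rw [e1, e2, ← Finset.sum_sub_distrib]
  refine Ideal.sum_mem _ fun s hs => ?_
  rw [← mul_sub]
  exact Ideal.mul_mem_left _ _ (arc_monomial t τ _ b (fun _ => rfl) d s (hdeg s hs))

end Pool.Agent.Helper67.CY
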